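import Pool.Agent.H586.AF.B

/-!
# Task AF-LA of helper586: gauge fixing of determinants
-/

set_option autoImplicit false

namespace Pool.Agent.H553.AF

open Pool.Agent.H586.AF
open Matrix

theorem tla : S_LA := by
  intro m n _ _ _ _ M V U hM _ hMD
  obtain ⟨D, hD⟩ : ∃ D : Matrix n n ℂ, D = Vᴴ * V + Uᴴ * U := ⟨_, rfl⟩
  rw [← hD] at hMD ⊢
  have hDh : Dᴴ = D := by
    rw [hD, conjTranspose_add, conjTranspose_mul, conjTranspose_mul, conjTranspose_conjTranspose,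
      conjTranspose_conjTranspose]
  obtain ⟨A, hA⟩ : ∃ A : Matrix m m ℂ, A = M.toBlocks₁₁ := ⟨_, rfl⟩
  obtain ⟨B, hB⟩ : ∃ B : Matrix m n ℂ, B = M.toBlocks₁₂ := ⟨_, rfl⟩
  obtain ⟨C, hC⟩ : ∃ C : Matrix n m ℂ, C = M.toBlocks₂₁ := ⟨_, rfl⟩
  obtain ⟨E, hE⟩ : ∃ E : Matrix n n ℂ, E = M.toBlocks₂₂ := ⟨_, rfl⟩
  have hMb : M = fromBlocks A B C E := by
    rw [hA, hB, hC, hE]
    exact (fromBlocks_toBlocks M).symm
  have hM' : Mᴴ = M := hM
  rw [hMb, fromBlocks_conjTranspose, fromBlocks_inj] at hM'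
  obtain ⟨hAA, hCB, hBC, -⟩ := hM'
  rw [hMb, fromBlocks_mul_fromRows, fromRows_mul] at hMD
  obtain ⟨h1, h2⟩ := fromRows_inj hMD
  rw [← hA]
  have h3 : Vᴴ * A + Uᴴ * C = D * Vᴴ := by
    have h4 := congrArg conjTranspose h1
    rw [conjTranspose_add, conjTranspose_mul, conjTranspose_mul, conjTranspose_mul, hAA, hBC,
      hDh] at h4
    exact h4
  have key : (fromBlocks 1 V 0 U)ᴴ * (M * fromBlocks 1 V 0 U) =
      fromBlocks 1 V 0 D * fromBlocks (A - V * Vᴴ) 0 0 1 * fromBlocks 1 0 Vᴴ D := by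
    rw [hMb, fromBlocks_conjTranspose, fromBlocks_multiply, fromBlocks_multiply,
      fromBlocks_multiply, fromBlocks_multiply, fromBlocks_inj]
    simp only [conjTranspose_one, conjTranspose_zero, Matrix.one_mul, Matrix.mul_one,
      Matrix.zero_mul, Matrix.mul_zero, add_zero, zero_add]
    refine ⟨?_, ?_, ?_, ?_⟩
    · rw [sub_add_cancel]
    · exact h1
    · exact h3
    · rw [h1, h2, ← Matrix.mul_assoc, ← Matrix.mul_assoc, ← Matrix.add_mul, ← hD]
  have hdet := congrArg Matrix.det key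
  rw [det_mul, det_mul, det_conjTranspose, det_fromBlocks_zero₂₁, det_mul, det_mul,
    det_fromBlocks_zero₂₁, det_fromBlocks_zero₂₁, det_fromBlocks_zero₁₂] at hdet
  simp only [det_one, one_mul, mul_one] at hdet
  calc M.det * (U.det * star U.det) = star U.det * (M.det * U.det) := by ring
    _ = _ := hdet
    _ = D.det ^ 2 * (A - V * Vᴴ).det := by ring

end Pool.Agent.H553.AF
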